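import Pool.Agent.helper66.FB.Spec
import Pool.Agent.helper20.HP.S1

/-!
Module EC of part B: cross energy and self energy of the tops of the words.
-/

set_option autoImplicit false

open scoped BigOperators Topology
open Filter MeasureTheory

namespace Pool.Agent.helper66.FB

open Finset
open Pool.Agent.helper20.HP

variable {V : Type} [Fintype V] [DecidableEq V]

/-- sum of `g` over the entries of a list -/
noncomputable def EC_ls (g : V → ℝ) (l : List V) : ℝ := (l.map g).sum

omit [Fintype V] [DecidableEq V] in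
theorem EC_ls_nonneg {g : V → ℝ} (hg : ∀ x, 0 ≤ g x) (l : List V) : 0 ≤ EC_ls g l := by
  unfold EC_ls
  refine List.sum_nonneg ?_
  intro a ha
  obtain ⟨x, _, rfl⟩ := List.mem_map.mp ha
  exact hg x

omit [Fintype V] in
theorem EC_sum_le_ls {g : V → ℝ} (hg : ∀ x, 0 ≤ g x) (A : Finset V) (l : List V)
    (h : A ⊆ l.toFinset) : ∑ x ∈ A, g x ≤ EC_ls g l := by
  refine (Finset.sum_le_sum_of_subset_of_nonneg h (fun x _ _ => hg x)).trans ?_
  unfold EC_ls
  induction l generalizing A with
  | nil => simp
  | cons a l ih =>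
    rw [List.toFinset_cons, List.map_cons, List.sum_cons]
    by_cases ha : a ∈ l.toFinset
    · rw [Finset.insert_eq_of_mem ha]
      have := ih l.toFinset (Finset.Subset.refl _)
      have := hg a
      linarith
    · rw [Finset.sum_insert ha]
      have := ih l.toFinset (Finset.Subset.refl _)
      linarith

theorem EC_Gr_nonneg (K : HW V) (m : ℕ) (x y : V) : 0 ≤ Gr K m x y :=
  Finset.sum_nonneg (fun _ _ => pt_nonneg K _ _ _)

theorem EC_Gr_symm (K : HW V) (m : ℕ) (x y : V) : Gr K m x y = Gr K m y x := by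
  unfold Gr
  exact Finset.sum_congr rfl (fun u _ => pt_symm K u x y)

/-- expectation of the sum over the entries -/
theorem EC_W_ls (K : HW V) (g : V → ℝ) (k : ℕ) (x : V) :
    W K k x (EC_ls g) = ∑ s ∈ range k, ∑ z, K.pt (s + 1) x z * g z := by
  induction k generalizing x with
  | zero => rw [W_zero]; simp [EC_ls]
  | succ k ih =>
    rw [W_succ, Finset.sum_range_succ']
    have h1 : ∀ y, W K k y (fun l => EC_ls g (y :: l)) = g y + W K k y (EC_ls g) := by
      intro y
      have : (fun l => EC_ls g (y :: l)) = fun l => (fun _ : List V => g y) l + EC_ls g l := by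
        funext l
        simp [EC_ls]
      rw [this, W_add, W_const]
    simp only [h1, ih]
    simp only [mul_add, Finset.sum_add_distrib]
    rw [add_comm]
    congr 1
    · have h2 : ∀ s ∈ range k, ∑ z, K.pt (s + 1 + 1) x z * g z =
          ∑ y, K.p x y * ∑ z, K.pt (s + 1) y z * g z := by
        intro s _
        simp only [Finset.mul_sum]
        rw [Finset.sum_comm]
        refine Finset.sum_congr rfl (fun z _ => ?_)
        rw [pt_succ, Finset.sum_mul]
        exact Finset.sum_congr rfl (fun y _ => by ring)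
      rw [Finset.sum_congr rfl h2, Finset.sum_comm]
      refine Finset.sum_congr rfl (fun y _ => ?_)
      rw [Finset.mul_sum]
    · refine Finset.sum_congr rfl (fun z _ => ?_)
      rw [Nat.zero_add, A2_pt_one]

/-- decomposition at the last `m` steps -/
theorem EC_main (K : HW V) (D : Finset V) (m N : ℕ) (F : V → List V → ℝ) (φ : List V → ℝ)
    (hφ : ∀ l, 0 ≤ φ l) (hF : ∀ y l1 l2, l2.length = m → F y (l1 ++ l2) ≤ φ l2) :
    kws K D N (fun y l => ind (m ≤ l.length) * F y l) ≤
      kws K D N (fun y l => W K m (lst y l) φ) := by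
  have hb : ∀ t, 0 ≤ kw K D t (fun y l => W K m (lst y l) φ) := by
    intro t
    refine Finset.sum_nonneg (fun y _ => W_nonneg K t y (fun l _ => ?_))
    exact mul_nonneg (ind_nonneg _) (W_nonneg K m _ (fun l _ => hφ l))
  have h0 : ∀ t, t < m → kw K D t (fun y l => ind (m ≤ l.length) * F y l) = 0 := by
    intro t ht
    refine Finset.sum_eq_zero (fun y _ => ?_)
    rw [W_congr K t y (g := fun _ => 0), W_const]
    intro l hl
    show ind (∀ z ∈ l, z ∉ D) * (ind (m ≤ l.length) * F y l) = 0
    rw [ind_false (p := m ≤ l.length) (by omega)]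
    ring
  have h1 : ∀ t, kw K D (t + m) (fun y l => ind (m ≤ l.length) * F y l) ≤
      kw K D t (fun y l => W K m (lst y l) φ) := by
    intro t
    refine Finset.sum_le_sum (fun y _ => ?_)
    rw [W_split]
    refine W_mono K t y (fun l1 _ => ?_)
    rw [← W_mul_left]
    refine W_mono K m _ (fun l2 h2 => ?_)
    have e1 := hF y l1 l2 h2
    have e2 := hφ l2
    have e3 : ind (m ≤ (l1 ++ l2).length) = 1 := ind_true (by rw [List.length_append]; omega)
    show ind (∀ z ∈ l1 ++ l2, z ∉ D) * (ind (m ≤ (l1 ++ l2).length) * F y (l1 ++ l2)) ≤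
      ind (∀ z ∈ l1, z ∉ D) * φ l2
    rw [e3, one_mul]
    by_cases ha : ∀ z ∈ l1, z ∉ D
    · rw [ind_true ha, one_mul]
      by_cases hc : ∀ z ∈ l1 ++ l2, z ∉ D
      · rw [ind_true hc, one_mul]
        exact e1
      · rw [ind_false hc, zero_mul]
        exact e2
    · rw [ind_false ha, zero_mul, ind_false, zero_mul]
      intro hc
      exact ha (fun z hz => hc z (List.mem_append_left _ hz))
  unfold kws
  rcases le_or_gt N m with hN | hN
  · rw [Finset.sum_eq_zero (fun t ht => h0 t (by have := Finset.mem_range.mp ht; omega))]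
    exact Finset.sum_nonneg (fun t _ => hb t)
  · obtain ⟨N', rfl⟩ := Nat.exists_eq_add_of_le hN.le
    rw [Finset.sum_range_add, Finset.sum_eq_zero (fun t ht => h0 t (Finset.mem_range.mp ht)), zero_add]
    refine (Finset.sum_le_sum (fun t _ => ?_)).trans
      (Finset.sum_le_sum_of_subset_of_nonneg (Finset.range_mono (by omega : N' ≤ m + N'))
        (fun t _ _ => hb t))
    rw [add_comm m t]
    exact h1 t

omit [Fintype V] in
theorem EC_top_subset (m : ℕ) (y : V) (l1 l2 : List V) (h : l2.length = m) :
    top m y (l1 ++ l2) ⊆ l2.toFinset := by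
  unfold top
  refine (Finset.inter_subset_right).trans ?_
  unfold List.rtake
  rw [List.length_append, h, Nat.add_sub_cancel, List.drop_left]

theorem EC : EC_stmt := by
  intro K1 V _ _ K D A m N
  set g : V → ℝ := fun z => ∑ a ∈ A, Gr K m z a with hg
  have hg0 : ∀ z, 0 ≤ g z := fun z => Finset.sum_nonneg (fun a _ => EC_Gr_nonneg K m z a)
  have hsum : ∑ z, g z = (m + 1) * A.card := by
    rw [hg, Finset.sum_comm]
    have : ∀ a ∈ A, ∑ z, Gr K m z a = (m : ℝ) + 1 := by
      intro a _
      unfold Gr
      rw [Finset.sum_comm]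
      have h2 : ∀ u ∈ range (m + 1), ∑ z, K.pt u z a = 1 := by
        intro u _
        rw [← pt_sum K u a]
        exact Finset.sum_congr rfl (fun z _ => pt_symm K u z a)
      rw [Finset.sum_congr rfl h2]
      simp
    rw [Finset.sum_congr rfl this, Finset.sum_const, nsmul_eq_mul]
    ring
  refine (EC_main K D m N _ (EC_ls g) (EC_ls_nonneg hg0) ?_).trans ?_
  · intro y l1 l2 h2
    unfold En
    exact EC_sum_le_ls hg0 _ _ (EC_top_subset m y l1 l2 h2)
  · have hG0 : ∀ x, 0 ≤ W K m x (EC_ls g) :=
      fun x => W_nonneg K m x (fun l _ => EC_ls_nonneg hg0 l)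
    refine (K1 V K D N (fun x => W K m x (EC_ls g)) hG0).trans (le_of_eq ?_)
    simp only [EC_W_ls]
    rw [Finset.sum_comm]
    have h3 : ∀ s ∈ range m, ∑ x, ∑ z, K.pt (s + 1) x z * g z = ∑ z, g z := by
      intro s _
      rw [Finset.sum_comm]
      refine Finset.sum_congr rfl (fun z _ => ?_)
      rw [← Finset.sum_mul]
      have h4 : ∑ x, K.pt (s + 1) x z = 1 := by
        rw [← pt_sum K (s + 1) z]
        exact Finset.sum_congr rfl (fun x _ => pt_symm K (s + 1) x z)
      rw [h4, one_mul]
    rw [Finset.sum_congr rfl h3, hsum]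
    simp
    ring

/-- double sum of the Green function over the entries of a list -/
noncomputable def EC_dl (K : HW V) (m : ℕ) : List V → ℝ
  | [] => 0
  | z :: l => Gr K m z z + 2 * EC_ls (Gr K m z) l + EC_dl K m l

theorem EC_dl_nonneg (K : HW V) (m : ℕ) (l : List V) : 0 ≤ EC_dl K m l := by
  induction l with
  | nil => exact le_refl _
  | cons z l ih =>
    have h1 := EC_Gr_nonneg K m z z
    have h2 := EC_ls_nonneg (EC_Gr_nonneg K m z) l
    unfold EC_dl
    linarith

theorem EC_En_le_dl (K : HW V) (m : ℕ) (l : List V) (A : Finset V) (h : A ⊆ l.toFinset) :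
    En K m A A ≤ EC_dl K m l := by
  have key : En K m l.toFinset l.toFinset ≤ EC_dl K m l := by
    clear h
    induction l with
    | nil => simp [En, EC_dl]
    | cons z l ih =>
      rw [List.toFinset_cons]
      have h1 := EC_Gr_nonneg K m z z
      have h2 := EC_ls_nonneg (EC_Gr_nonneg K m z) l
      unfold EC_dl
      by_cases hz : z ∈ l.toFinset
      · rw [Finset.insert_eq_of_mem hz]
        linarith
      · unfold En
        rw [Finset.sum_insert hz]
        have h3 : ∀ x ∈ l.toFinset, ∑ y ∈ insert z l.toFinset, Gr K m x y =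
            Gr K m x z + ∑ y ∈ l.toFinset, Gr K m x y := fun x _ => Finset.sum_insert hz
        rw [Finset.sum_insert hz, Finset.sum_congr rfl h3, Finset.sum_add_distrib]
        have h4 : ∑ x ∈ l.toFinset, Gr K m x z = ∑ x ∈ l.toFinset, Gr K m z x :=
          Finset.sum_congr rfl (fun x _ => EC_Gr_symm K m x z)
        rw [h4]
        have h5 := EC_sum_le_ls (EC_Gr_nonneg K m z) l.toFinset l (Finset.Subset.refl _)
        unfold En at ih
        linarith
  refine le_trans ?_ key
  unfold En
  refine (Finset.sum_le_sum (fun x _ => Finset.sum_le_sum_of_subset_of_nonneg h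
    (fun y _ _ => EC_Gr_nonneg K m x y))).trans ?_
  exact Finset.sum_le_sum_of_subset_of_nonneg h
    (fun x _ _ => Finset.sum_nonneg (fun y _ => EC_Gr_nonneg K m x y))

theorem EC_W_dl {K : HW V} {θ : ℝ} {h : ℕ} (hP : Par K θ h) (m : ℕ)
    (hm : 4 * m ≤ Nat.sqrt (Fintype.card V)) (k : ℕ) (hk : k ≤ m) (x : V) :
    W K k x (EC_dl K m) ≤ 2 * θ * k := by
  induction k generalizing x with
  | zero => rw [W_zero]; simp [EC_dl]
  | succ k ih =>
    rw [W_succ]
    have h1 : ∀ y, W K k y (fun l => EC_dl K m (y :: l)) =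
        Gr K m y y + 2 * W K k y (EC_ls (Gr K m y)) + W K k y (EC_dl K m) := by
      intro y
      have e : (fun l => EC_dl K m (y :: l)) =
          fun l => (Gr K m y y + 2 * EC_ls (Gr K m y) l) + EC_dl K m l := by
        funext l; rfl
      rw [e, W_add, W_add K k y (fun _ => Gr K m y y) (fun l => 2 * EC_ls (Gr K m y) l), W_const,
        W_mul_left]
    have h2 : ∀ y, Gr K m y y + 2 * W K k y (EC_ls (Gr K m y)) ≤ 2 * θ := by
      intro y
      have e1 : Gr K m y y = ∑ u ∈ range (m + 1), cc K (0 + u) := by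
        unfold Gr
        exact Finset.sum_congr rfl (fun u _ => by rw [zero_add, cc_eq])
      have e2 : W K k y (EC_ls (Gr K m y)) =
          ∑ s ∈ range k, ∑ u ∈ range (m + 1), cc K (s + 1 + u) := by
        rw [EC_W_ls]
        refine Finset.sum_congr rfl (fun s _ => ?_)
        unfold Gr
        simp only [Finset.mul_sum]
        rw [Finset.sum_comm]
        refine Finset.sum_congr rfl (fun u _ => ?_)
        rw [← cc_eq K (s + 1 + u) y, pt_add]
        exact Finset.sum_congr rfl (fun z _ => by rw [pt_symm K u z y])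
      have e3 := cc_double_le hP (M := k + 1) (N := m + 1) (by omega)
      rw [Finset.sum_range_succ'] at e3
      have e4 : 0 ≤ Gr K m y y := EC_Gr_nonneg K m y y
      rw [e1] at e4 ⊢
      rw [e2]
      linarith
    have h3 : ∀ y, W K k y (fun l => EC_dl K m (y :: l)) ≤ 2 * θ * ((k + 1 : ℕ) : ℝ) := by
      intro y
      rw [h1]
      have := h2 y
      have := ih (by omega) y
      push_cast
      linarith
    calc ∑ y, K.p x y * W K k y (fun l => EC_dl K m (y :: l))
        ≤ ∑ y, K.p x y * (2 * θ * ((k + 1 : ℕ) : ℝ)) :=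
          Finset.sum_le_sum (fun y _ => mul_le_mul_of_nonneg_left (h3 y) (K.nonneg x y))
      _ = 2 * θ * ((k + 1 : ℕ) : ℝ) := by rw [← Finset.sum_mul, K.sum_one, one_mul]

theorem ES : ES_stmt := by
  intro K1 V _ _ K θ h hP D m N hm
  refine (EC_main K D m N _ (EC_dl K m) (EC_dl_nonneg K m) ?_).trans ?_
  · intro y l1 l2 h2
    exact EC_En_le_dl K m _ _ (EC_top_subset m y l1 l2 h2)
  · have hG0 : ∀ x, 0 ≤ W K m x (EC_dl K m) :=
      fun x => W_nonneg K m x (fun l _ => EC_dl_nonneg K m l)
    refine (K1 V K D N (fun x => W K m x (EC_dl K m)) hG0).trans ?_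
    refine (Finset.sum_le_sum (fun x _ => EC_W_dl hP m hm m le_rfl x)).trans (le_of_eq ?_)
    rw [Finset.sum_const, Finset.card_univ, nsmul_eq_mul]
    ring

end Pool.Agent.helper66.FB
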